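import Pool.Agent.U136.Nor

/-!
# MP_6eafb7_an: positivity of the convolution sums of the Nörlund polynomials `B_m^{(n)}`

`B_n^{(n+1)}(x) = (x-1)...(x-n)`, so `B_n^{(n)}(x)` is the mean value of this product over
`[x, x+1]`; it has the sign `(-1)^(n-k)` at `k = 0, ..., n`, hence it has `n` real zeros, one in each
interval `(k, k+1)`, `k < n`.  Therefore `|B_n^{(n)}(x+iy)|^2 = ∏ ((x - r_i)^2 + y^2)`, and the
`α_{n,k}(x)`, `β_{n,k}(x)` are elementary symmetric functions of the numbers `(x - r_i)^2`.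
-/

set_option autoImplicit false

namespace Pool.Agent.Results.MP_6eafb7_an.Positive

open PowerSeries Finset

/-- the formal power series `t / (e^t - 1)`: the inverse of `∑ t^k / (k+1)!` -/
noncomputable def tOverExpSubOne : PowerSeries ℝ :=
  (PowerSeries.mk fun k => 1 / ((k + 1).factorial : ℝ))⁻¹

/-- the generalized Bernoulli polynomial `B_m^{(a)}(x)` (`a` a natural number):
`m!` times the coefficient of `t^m` in `(t / (e^t - 1))^a e^{xt}` -/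
noncomputable def B (a m : ℕ) (x : ℝ) : ℝ :=
  m.factorial * PowerSeries.coeff m
    (tOverExpSubOne ^ a * PowerSeries.rescale x (PowerSeries.exp ℝ))

/-- `α_{n,k}(x) = (-1)^k ∑_{j ≤ 2k} (-1)^j C(n,j) C(n,2k-j) B_{n-j}^{(n)}(x) B_{n-2k+j}^{(n)}(x)`
(used for `2k ≤ n`) -/
noncomputable def alpha (n k : ℕ) (x : ℝ) : ℝ :=
  (-1) ^ k * ∑ j ∈ range (2 * k + 1), (-1) ^ j * (n.choose j : ℝ) * (n.choose (2 * k - j) : ℝ) *
    B n (n - j) x * B n (n - (2 * k - j)) x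

/-- `β_{n,k}(x) = (-1)^k ∑_{j ≤ 2k} (-1)^j C(n,j) C(n,2k-j) B_j^{(n)}(x) B_{2k-j}^{(n)}(x)` -/
noncomputable def beta (n k : ℕ) (x : ℝ) : ℝ :=
  (-1) ^ k * ∑ j ∈ range (2 * k + 1), (-1) ^ j * (n.choose j : ℝ) * (n.choose (2 * k - j) : ℝ) *
    B n j x * B n (2 * k - j) x

/-- `α_{n,k}(x) > 0` for `1 ≤ 2k ≤ n`, and `β_{n,k}(x) > 0` for `0 ≤ 2k ≤ n - 1`. -/
theorem result (n : ℕ) (_hn : 1 ≤ n) (x : ℝ) :
    (∀ k : ℕ, 1 ≤ 2 * k → 2 * k ≤ n → 0 < alpha n k x) ∧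
    (∀ k : ℕ, 2 * k < n → 0 < beta n k x) :=
  ⟨fun k h1 h2 => Pool.Agent.U136.Nor.alpha_pos n k h1 h2 x,
    fun k h => Pool.Agent.U136.Nor.beta_pos n k h x⟩

end Pool.Agent.Results.MP_6eafb7_an.Positive
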